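import Pool.Agent.Helper55.CF.Goals

/-!
Packet ODE of MP_b612a6_ag.
-/

namespace Pool.Agent.Helper14.CF

open CF55 Finset Filter Topology

/-- the derivative series -/
noncomputable def Dser (a : ℕ → ℂ) (R : ℝ) : ℂ :=
  ∑' n : ℕ, ((n : ℂ) * (((-R : ℝ) : ℂ)) ^ (n - 1) * (-1)) / (n.factorial : ℂ) * a n

lemma summable_main (x : ℝ) : Summable fun n : ℕ => x ^ n / (n.factorial : ℝ) :=
  Real.summable_pow_div_factorial x

lemma summable_der (x : ℝ) : Summable fun n : ℕ => (n : ℝ) * x ^ (n - 1) / (n.factorial : ℝ) := by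
  rw [← summable_nat_add_iff 1]
  refine (summable_main x).congr fun n => ?_
  have h : ((n : ℝ) + 1) ≠ 0 := by positivity
  have h2 : (n.factorial : ℝ) ≠ 0 := by positivity
  rw [Nat.add_sub_cancel, Nat.factorial_succ]
  push_cast
  field_simp

lemma ser_summable {a : ℕ → ℂ} {A B : ℝ} (ha : ∀ k, ‖a k‖ ≤ A * B ^ k) (R : ℝ) :
    Summable fun k : ℕ => ((-R : ℝ) : ℂ) ^ k / (k.factorial : ℂ) * a k := by
  have hs : Summable fun k : ℕ => |A| * ((|R| * |B|) ^ k / (k.factorial : ℝ)) :=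
    (summable_main _).mul_left _
  refine Summable.of_norm_bounded hs fun k => ?_
  rw [norm_mul, norm_div, norm_pow, Complex.norm_real, Complex.norm_natCast, norm_neg,
    Real.norm_eq_abs]
  have h1 : ‖a k‖ ≤ |A| * |B| ^ k := by
    refine (ha k).trans ?_
    calc A * B ^ k ≤ |A * B ^ k| := le_abs_self _
      _ = |A| * |B| ^ k := by rw [abs_mul, abs_pow]
  calc |R| ^ k / (k.factorial : ℝ) * ‖a k‖ ≤ |R| ^ k / (k.factorial : ℝ) * (|A| * |B| ^ k) := by
        gcongr
    _ = |A| * ((|R| * |B|) ^ k / (k.factorial : ℝ)) := by rw [mul_pow]; ring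

lemma ser_hasDerivAt {a : ℕ → ℂ} {A B : ℝ} (ha : ∀ k, ‖a k‖ ≤ A * B ^ k) (R : ℝ) :
    HasDerivAt (fun R : ℝ => Ser a R) (Dser a R) R := by
  set M : ℝ := |R| + 1 with hM
  have hMpos : 0 < M := by positivity
  have hs : Summable fun k : ℕ => (|A| * |B|) * ((k : ℝ) * (M * |B|) ^ (k - 1) /
      (k.factorial : ℝ)) := (summable_der _).mul_left _
  have hR : R ∈ Metric.ball (0 : ℝ) M := by
    rw [Metric.mem_ball, dist_zero_right, Real.norm_eq_abs]
    linarith
  have h0 : (0 : ℝ) ∈ Metric.ball (0 : ℝ) M := Metric.mem_ball_self hMpos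
  refine hasDerivAt_tsum_of_isPreconnected (t := Metric.ball (0 : ℝ) M)
    (g := fun k (R : ℝ) => ((-R : ℝ) : ℂ) ^ k / (k.factorial : ℂ) * a k)
    (g' := fun n (R : ℝ) => ((n : ℂ) * (((-R : ℝ) : ℂ)) ^ (n - 1) * (-1)) / (n.factorial : ℂ) * a n)
    hs Metric.isOpen_ball (convex_ball _ _).isPreconnected ?_ ?_ hR (ser_summable ha R) hR
  · intro n y _
    have h1 : HasDerivAt (fun R : ℝ => ((-R : ℝ) : ℂ)) (-1) y := by
      have := (hasDerivAt_id y).neg.ofReal_comp
      simpa using this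
    have h2 := ((h1.pow n).div_const (n.factorial : ℂ)).mul_const (a n)
    exact h2
  · intro n y hy
    rw [Metric.mem_ball, dist_zero_right, Real.norm_eq_abs] at hy
    rw [norm_mul, norm_div, norm_mul, norm_mul, norm_pow, Complex.norm_real,
      Complex.norm_natCast, Complex.norm_natCast, norm_neg, norm_neg, norm_one, mul_one,
      Real.norm_eq_abs]
    have h1 : ‖a n‖ ≤ |A| * |B| ^ n := by
      refine (ha n).trans ?_
      calc A * B ^ n ≤ |A * B ^ n| := le_abs_self _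
        _ = |A| * |B| ^ n := by rw [abs_mul, abs_pow]
    rcases n with _ | n
    · simp
    · rw [Nat.add_sub_cancel]
      calc ((n + 1 : ℕ) : ℝ) * |y| ^ n / ((n + 1).factorial : ℝ) * ‖a (n + 1)‖
          ≤ ((n + 1 : ℕ) : ℝ) * M ^ n / ((n + 1).factorial : ℝ) * (|A| * |B| ^ (n + 1)) := by
            gcongr
        _ = |A| * |B| * (((n + 1 : ℕ) : ℝ) * (M * |B|) ^ n / ((n + 1).factorial : ℝ)) := by
            rw [mul_pow, pow_succ]; ring

lemma mul_Dser (a : ℕ → ℂ) (R : ℝ) :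
    (R : ℂ) * Dser a R = Ser (fun k => (k : ℂ) * a k) R := by
  unfold Dser Ser
  rw [← tsum_mul_left]
  refine tsum_congr fun n => ?_
  rcases n with _ | n
  · simp
  · rw [Nat.add_sub_cancel, pow_succ]
    push_cast
    ring

lemma bound_lin {a : ℕ → ℂ} {A B : ℝ} (ha : ∀ k, ‖a k‖ ≤ A * B ^ k) (q : Polynomial ℂ) :
    ∃ A' B' : ℝ, ∀ k : ℕ, ‖q.eval (k : ℂ) * a k‖ ≤ A' * B' ^ k := by
  have hq : ∃ K : ℝ, 0 ≤ K ∧ ∀ k : ℕ, ‖q.eval (k : ℂ)‖ ≤ K * 2 ^ k := by
    induction q using Polynomial.induction_on' with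
    | add p q hp hq =>
      obtain ⟨K, hK, h1⟩ := hp
      obtain ⟨L, hL, h2⟩ := hq
      refine ⟨K + L, by positivity, fun k => ?_⟩
      rw [Polynomial.eval_add, add_mul]
      exact (norm_add_le _ _).trans (add_le_add (h1 k) (h2 k))
    | monomial n c =>
      have ht := tendsto_pow_const_div_const_pow_of_one_lt n (one_lt_two (α := ℝ))
      obtain ⟨K, hK⟩ := ht.bddAbove_range
      refine ⟨‖c‖ * max K 0, by positivity, fun k => ?_⟩
      rw [Polynomial.eval_monomial, norm_mul, norm_pow, Complex.norm_natCast, mul_assoc]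
      refine mul_le_mul_of_nonneg_left ?_ (norm_nonneg _)
      have h1 : (k : ℝ) ^ n / 2 ^ k ≤ K := hK ⟨k, rfl⟩
      rw [div_le_iff₀ (by positivity)] at h1
      refine h1.trans ?_
      gcongr
      exact le_max_left _ _
  obtain ⟨K, hK, h⟩ := hq
  refine ⟨K * A, 2 * B, fun k => ?_⟩
  rw [norm_mul, mul_pow]
  calc ‖q.eval (k : ℂ)‖ * ‖a k‖ ≤ (K * 2 ^ k) * (A * B ^ k) := by
        refine mul_le_mul (h k) (ha k) (norm_nonneg _) (by positivity)
    _ = K * A * (2 ^ k * B ^ k) := by ring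

/-- one linear factor -/
lemma stepA {a : ℕ → ℂ} {n : ℕ} {ρ : ℂ} (hρ : ρ.re ≤ -(n : ℝ))
    {A B : ℝ} (ha : ∀ k, ‖a k‖ ≤ A * B ^ k) {C : ℝ} {j : ℕ}
    (hb : ∀ R : ℝ, 2 ≤ R →
      ‖Ser (fun k => ((k : ℂ) - ρ) * a k) R‖ ≤ C * Real.log R ^ j / R ^ n) :
    ∃ (C : ℝ) (j : ℕ), ∀ R : ℝ, 2 ≤ R → ‖Ser a R‖ ≤ C * Real.log R ^ j / R ^ n := by
  have hlog2 : 0 < Real.log 2 := Real.log_pos one_lt_two
  have hC : 0 ≤ C := by
    have h2 := hb 2 le_rfl
    have h3 : 0 ≤ C * Real.log 2 ^ j / 2 ^ n := (norm_nonneg _).trans h2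
    by_contra hneg
    push Not at hneg
    have h4 : C * Real.log 2 ^ j / 2 ^ n < 0 :=
      div_neg_of_neg_of_pos (mul_neg_of_neg_of_pos hneg (by positivity)) (by positivity)
    linarith
  -- the function in logarithmic variable
  set H : ℝ → ℂ := fun u => Complex.exp (-ρ * (u : ℂ)) * Ser a (Real.exp u) with hH
  set G : ℝ → ℂ := fun u => Complex.exp (-ρ * (u : ℂ)) *
    Ser (fun k => ((k : ℂ) - ρ) * a k) (Real.exp u) with hG
  have hder : ∀ u : ℝ, HasDerivAt H (G u) u := by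
    intro u
    have h1 : HasDerivAt (fun u : ℝ => Complex.exp (-ρ * (u : ℂ)))
        (Complex.exp (-ρ * (u : ℂ)) * (-ρ)) u := by
      have := ((hasDerivAt_id u).ofReal_comp.const_mul (-ρ)).cexp
      simpa using this
    have h2 : HasDerivAt (fun u : ℝ => Ser a (Real.exp u)) (Real.exp u • Dser a (Real.exp u)) u :=
      (ser_hasDerivAt ha (Real.exp u)).scomp u (Real.hasDerivAt_exp u)
    have h3 := h1.mul h2
    have h4 : Complex.exp (-ρ * (u : ℂ)) * (-ρ) * Ser a (Real.exp u) +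
        Complex.exp (-ρ * (u : ℂ)) * (Real.exp u • Dser a (Real.exp u)) = G u := by
      rw [hG]
      simp only
      have h5 : Ser (fun k => ((k : ℂ) - ρ) * a k) (Real.exp u)
          = Ser (fun k => (k : ℂ) * a k) (Real.exp u) - ρ * Ser a (Real.exp u) := by
        unfold Ser
        rw [← tsum_mul_left, ← Summable.tsum_sub]
        · refine tsum_congr fun k => ?_
          ring
        · obtain ⟨A', B', h⟩ := bound_lin ha Polynomial.X
          have := ser_summable (a := fun k => (k : ℂ) * a k) (A := A') (B := B')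
            (fun k => by simpa using h k) (Real.exp u)
          exact this
        · exact (ser_summable ha _).mul_left _
      rw [h5, Complex.real_smul, ← mul_Dser]
      ring
    rw [← h4]
    exact h3
  have hnormexp : ∀ u : ℝ, ‖Complex.exp (-ρ * (u : ℂ))‖ = Real.exp (-ρ.re * u) := by
    intro u
    rw [Complex.norm_exp]
    congr 1
    simp
  set e : ℝ := -ρ.re - n with he
  have he0 : 0 ≤ e := by rw [he]; linarith
  have hGb : ∀ u : ℝ, Real.log 2 ≤ u → ‖G u‖ ≤ C * u ^ j * Real.exp (e * u) := by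
    intro u hu
    have hexp : (2 : ℝ) ≤ Real.exp u := by
      rw [← Real.exp_log (show (0 : ℝ) < 2 by norm_num)]
      exact Real.exp_le_exp.2 hu
    have h1 := hb (Real.exp u) hexp
    rw [Real.log_exp] at h1
    rw [hG]
    simp only
    rw [norm_mul, hnormexp]
    calc Real.exp (-ρ.re * u) * ‖Ser (fun k => ((k : ℂ) - ρ) * a k) (Real.exp u)‖
        ≤ Real.exp (-ρ.re * u) * (C * u ^ j / Real.exp u ^ n) := by gcongr
      _ = C * u ^ j * (Real.exp (-ρ.re * u) / Real.exp u ^ n) := by ring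
      _ = C * u ^ j * Real.exp (e * u) := by
        rw [← Real.exp_nat_mul, ← Real.exp_sub, he]
        congr 2
        ring
  refine ⟨‖H (Real.log 2)‖ / Real.log 2 ^ (j + 1) + C, j + 1, fun R hR => ?_⟩
  set L : ℝ := Real.log R with hL
  have hR0 : 0 < R := by linarith
  have hLge : Real.log 2 ≤ L := Real.log_le_log (by norm_num) hR
  have hL0 : 0 < L := hlog2.trans_le hLge
  have hexpL : Real.exp L = R := Real.exp_log hR0
  have hdiff : ‖H L - H (Real.log 2)‖ ≤ (C * L ^ j * Real.exp (e * L)) * (L - Real.log 2) := by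
    refine norm_image_sub_le_of_norm_deriv_le_segment' (f' := G)
      (fun x _ => (hder x).hasDerivWithinAt) (fun x hx => ?_) L (Set.right_mem_Icc.2 hLge)
    refine (hGb x hx.1).trans ?_
    have hx0 : 0 ≤ x := hlog2.le.trans hx.1
    have hxL : x ≤ L := hx.2.le
    gcongr
  have hHL : ‖H L‖ ≤ ‖H (Real.log 2)‖ + C * L ^ (j + 1) * Real.exp (e * L) := by
    have h1 : ‖H L‖ ≤ ‖H (Real.log 2)‖ + ‖H L - H (Real.log 2)‖ := by
      have := norm_add_le (H (Real.log 2)) (H L - H (Real.log 2))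
      simpa using this
    refine h1.trans (add_le_add le_rfl (hdiff.trans ?_))
    have h2 : L - Real.log 2 ≤ L := by linarith
    calc (C * L ^ j * Real.exp (e * L)) * (L - Real.log 2)
        ≤ (C * L ^ j * Real.exp (e * L)) * L := by gcongr
      _ = C * L ^ (j + 1) * Real.exp (e * L) := by ring
  have hSer : ‖Ser a R‖ = Real.exp (ρ.re * L) * ‖H L‖ := by
    rw [hH]
    simp only
    rw [norm_mul, hnormexp, hexpL, ← mul_assoc, ← Real.exp_add]
    simp
  have hRn : R ^ n = Real.exp (n * L) := by rw [Real.exp_nat_mul, hexpL]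
  rw [hSer]
  have hk1 : Real.exp (ρ.re * L) ≤ (R ^ n)⁻¹ := by
    rw [hRn, ← Real.exp_neg]
    refine Real.exp_le_exp.2 ?_
    nlinarith
  have hk2 : Real.exp (ρ.re * L) * Real.exp (e * L) = (R ^ n)⁻¹ := by
    rw [hRn, ← Real.exp_neg, ← Real.exp_add, he]
    congr 1
    ring
  have hk3 : ‖H (Real.log 2)‖ ≤ ‖H (Real.log 2)‖ / Real.log 2 ^ (j + 1) * L ^ (j + 1) := by
    have h5 : Real.log 2 ^ (j + 1) ≤ L ^ (j + 1) := by gcongr
    rw [div_mul_eq_mul_div, le_div_iff₀ (by positivity)]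
    gcongr
  calc Real.exp (ρ.re * L) * ‖H L‖
      ≤ Real.exp (ρ.re * L) * (‖H (Real.log 2)‖ + C * L ^ (j + 1) * Real.exp (e * L)) := by gcongr
    _ = Real.exp (ρ.re * L) * ‖H (Real.log 2)‖ +
        C * L ^ (j + 1) * (Real.exp (ρ.re * L) * Real.exp (e * L)) := by ring
    _ ≤ (R ^ n)⁻¹ * (‖H (Real.log 2)‖ / Real.log 2 ^ (j + 1) * L ^ (j + 1)) +
        C * L ^ (j + 1) * (R ^ n)⁻¹ := by
        rw [hk2]
        gcongr
    _ = (‖H (Real.log 2)‖ / Real.log 2 ^ (j + 1) + C) * L ^ (j + 1) / R ^ n := by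
        rw [div_eq_mul_inv _ (R ^ n)]
        ring

theorem stmtODE : G_ODE := by
  intro a n q hq hroots hbd hser
  obtain ⟨d, hd⟩ : ∃ d, q.natDegree = d := ⟨_, rfl⟩
  induction d generalizing q a with
  | zero =>
    obtain ⟨C, j, h⟩ := hser
    obtain ⟨A, B, ha⟩ := hbd
    obtain ⟨c, rfl⟩ : ∃ c, q = Polynomial.C c := ⟨_, Polynomial.eq_C_of_natDegree_eq_zero hd⟩
    have hc : c ≠ 0 := by
      rintro rfl
      exact hq (by simp)
    refine ⟨‖c‖⁻¹ * C, j, fun R hR => ?_⟩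
    have h1 := h R hR
    have h2 : Ser (fun k => (Polynomial.C c).eval (k : ℂ) * a k) R = c * Ser a R := by
      unfold Ser
      rw [← tsum_mul_left]
      refine tsum_congr fun k => ?_
      simp only [Polynomial.eval_C]
      ring
    rw [h2, norm_mul] at h1
    have hc0 : 0 < ‖c‖ := norm_pos_iff.2 hc
    calc ‖Ser a R‖ = ‖c‖⁻¹ * (‖c‖ * ‖Ser a R‖) := by field_simp
      _ ≤ ‖c‖⁻¹ * (C * Real.log R ^ j / R ^ n) := by gcongr
      _ = ‖c‖⁻¹ * C * Real.log R ^ j / R ^ n := by ring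
  | succ d ih =>
    obtain ⟨A, B, ha⟩ := hbd
    have hdeg : q.degree ≠ 0 := by
      rw [Polynomial.degree_eq_natDegree hq, hd]
      exact_mod_cast Nat.succ_ne_zero d
    obtain ⟨ρ, hρ⟩ := IsAlgClosed.exists_root q hdeg
    obtain ⟨q1, rfl⟩ := Polynomial.dvd_iff_isRoot.2 hρ
    have hq1 : q1 ≠ 0 := right_ne_zero_of_mul hq
    obtain ⟨A', B', ha'⟩ := bound_lin ha q1
    obtain ⟨C, j, hC⟩ := hser
    have hA := stepA (a := fun k => q1.eval (k : ℂ) * a k) (n := n) (ρ := ρ) (hroots ρ hρ) ha'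
      (C := C) (j := j) (fun R hR => by
        have h1 := hC R hR
        have h2 : (fun k : ℕ => ((k : ℂ) - ρ) * (q1.eval (k : ℂ) * a k)) =
            fun k : ℕ => ((Polynomial.X - Polynomial.C ρ) * q1).eval (k : ℂ) * a k := by
          funext k
          rw [Polynomial.eval_mul, Polynomial.eval_sub, Polynomial.eval_X, Polynomial.eval_C]
          ring
        rw [h2]
        exact h1)
    refine ih a q1 hq1 (fun r hr => hroots r ?_) ⟨A, B, ha⟩ hA ?_
    · rw [Polynomial.IsRoot, Polynomial.eval_mul, hr.eq_zero, mul_zero]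
    · rw [Polynomial.natDegree_mul (Polynomial.X_sub_C_ne_zero ρ) hq1,
        Polynomial.natDegree_X_sub_C] at hd
      omega

end Pool.Agent.Helper14.CF
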